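import Pool.Agent.helper55.GL.All

set_option autoImplicit false

namespace Pool.Agent.Results.MP_51d945_co.Atoms

open SimpleGraph Pool.Agent.GL

/-- (1) `ex*(n, L) = O(ex(n, L))` holds for all bipartite graphs with a class of size at most `3`.
(2) For connected bipartite graphs the property is preserved by clique sums. (3) The conjecture
`Q1` holds if and only if it holds for all bipartite graphs without clique separators in which both
classes have at least four vertices. -/
theorem result :
    (∀ (V : Type) [Fintype V] (H : SimpleGraph V) (c : V → Bool), Pr H c →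
      (Nat.card {a : V // c a = true} ≤ 3 ∨ Nat.card {a : V // c a = false} ≤ 3) → QG H c) ∧
    (∀ (V : Type) [Fintype V] (H : SimpleGraph V) (c : V → Bool), Pr H c → H.Connected →
      ∀ A B : Set V, Sep H A B →
      QG (H.induce A) (fun a => c a) → QG (H.induce B) (fun a => c a) → QG H c) ∧
    (Q1 ↔ ∀ (V : Type) [Fintype V] (H : SimpleGraph V) (c : V → Bool), Pr H c → Atom H →
      4 ≤ Nat.card {a : V // c a = true} → 4 ≤ Nat.card {a : V // c a = false} → QG H c) :=
  aFIN

end Pool.Agent.Results.MP_51d945_co.Atoms
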