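import Pool.Agent.helper55.GL.All

set_option autoImplicit false

namespace Pool.Agent.Results.MP_51d945_co.GluingCriterion

open SimpleGraph Pool.Agent.GL

/-- The gluing criterion. For a connected bipartite graph `H` with at least three vertices,
`ex*(n, H) = O(ex(n, H))` holds if and only if two copies of `H` can be joined by an edge between
the two copies of a vertex `v` without changing the order of magnitude of the Turán number (for all
`v`, or for one `v`), if and only if `H` is contained in a connected bipartite graph `K` with an
automorphism exchanging the classes and `ex(n, K) = O(ex(n, H))`. The conjecture `Q1` holds if and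
only if any two connected bipartite graphs with at least three vertices can be joined by any edge:
`ex(n, H and K joined by v w) = O(ex(n, H) + ex(n, K))`. -/
theorem result :
    (∀ (V : Type) [Fintype V] (H : SimpleGraph V) (c : V → Bool), H.Connected → Pr H c →
      3 ≤ Fintype.card V → List.TFAE [QG H c, ∀ v, JB H v, ∃ v, JB H v, Sy H]) ∧
    (Q1 ↔ ∀ (V W : Type) [Fintype V] [Fintype W] (H : SimpleGraph V) (K : SimpleGraph W),
      H.Connected → K.Connected → H.IsBipartite → K.IsBipartite → 3 ≤ Fintype.card V →
      3 ≤ Fintype.card W → ∀ (v : V) (w : W),
      ∃ C : ℕ, ∀ n, ex n (Join H K v w) ≤ C * (ex n H + ex n K)) :=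
  ⟨aLOC, aGLO⟩

end Pool.Agent.Results.MP_51d945_co.GluingCriterion
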