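import Mathlib
import Pool.Agent.helper14.XG.Final

set_option autoImplicit false

/-!
There is a connected bipartite graph `M` whose asymmetric Turan number is larger than its Turan number
by a power of `n`: `ex*(n, M) >= n^(4/3) / 16` and `ex(n, M) <= C n^(33/25)` for all `n`.
-/

namespace Pool.Agent.Results.MP_51d945_co.PolynomialGap

open SimpleGraph Pool.Agent.XT Pool.Agent.XG

/-- The bipartite graph `L(X, Y)` of a relation: the vertices are those of `X` and those of `Y`, and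
`x` is adjacent to `y` if `R x y`. -/
def bip {X Y : Type} (R : X → Y → Prop) : SimpleGraph (X ⊕ Y) where
  Adj a b := (∃ x y, a = Sum.inl x ∧ b = Sum.inr y ∧ R x y) ∨
    (∃ x y, b = Sum.inl x ∧ a = Sum.inr y ∧ R x y)
  symm := ⟨fun _ _ h => h.symm⟩
  loopless := ⟨by
    rintro a (⟨x, y, h1, h2, -⟩ | ⟨x, y, h1, h2, -⟩) <;>
    · rw [h1] at h2
      exact absurd h2 (by simp)⟩

/-- The bipartite graph with ordered parts `U = V = Fin n` and edge set `E` has an ordered copy of
`L(X, Y)`: the class `X` goes into `U` and the class `Y` into `V`. -/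
def HasOrderedCopy {X Y : Type} (R : X → Y → Prop) {n : ℕ} (E : Finset (Fin n × Fin n)) : Prop :=
  ∃ (f : X → Fin n) (g : Y → Fin n), Function.Injective f ∧ Function.Injective g ∧
    ∀ x y, R x y → (f x, g y) ∈ E

open Classical in
/-- `ex*(n, L)`: the largest number of edges of a bipartite graph with ordered parts of size `n` and
without ordered copy of `L(X, Y)`. -/
noncomputable def exStar {X Y : Type} (R : X → Y → Prop) (n : ℕ) : ℕ :=
  ((Finset.univ : Finset (Finset (Fin n × Fin n))).filter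
    (fun E => ¬ HasOrderedCopy R E)).sup Finset.card

lemma bip_eq {X Y : Type} (R : X → Y → Prop) : bip R = GL.Gr R := by
  ext a b
  unfold GL.Gr
  rw [SimpleGraph.fromRel_adj]
  constructor
  · intro h
    refine ⟨(bip R).ne_of_adj h, ?_⟩
    rcases h with ⟨x, y, h1, h2, h3⟩ | ⟨x, y, h1, h2, h3⟩
    · exact Or.inl ⟨x, y, h1, h2, h3⟩
    · exact Or.inr ⟨x, y, h1, h2, h3⟩
  · rintro ⟨-, ⟨x, y, h1, h2, h3⟩ | ⟨x, y, h1, h2, h3⟩⟩
    · exact Or.inl ⟨x, y, h1, h2, h3⟩
    · exact Or.inr ⟨x, y, h1, h2, h3⟩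

lemma le_exStar {X Y : Type} (R : X → Y → Prop) {n : ℕ} (E : Finset (Fin n × Fin n))
    (h : ¬ HasOrderedCopy R E) : E.card ≤ exStar R n := by
  classical
  unfold exStar
  exact Finset.le_sup (f := Finset.card) (Finset.mem_filter.2 ⟨Finset.mem_univ _, h⟩)

lemma adj_of {X Y : Type} {R : X → Y → Prop} {x : X} {y : Y} (h : R x y) :
    (bip R).Adj (Sum.inl x) (Sum.inr y) := Or.inl ⟨x, y, rfl, rfl, h⟩

/-- the points of a gadget are joined to its last point -/
lemma reach_u (g : GI) (i : Fin 3) :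
    (bip RM).Reachable (Sum.inl (uM g i)) (Sum.inl (wM g 0)) := by
  have h : ∀ i : Fin 3, ((i, (0 : Fin 3)) : Fin 3 × Fin 3) ≠ (2, 2) := by decide
  have h1 : RM (uM g i) (Sum.inr (g, ⟨(i, 0), h i⟩)) := Or.inr ⟨g, _, rfl, Or.inl rfl⟩
  have h2 : RM (wM g 0) (Sum.inr (g, ⟨(i, 0), h i⟩)) := Or.inr ⟨g, _, rfl, Or.inr rfl⟩
  exact (adj_of h1).reachable.trans (adj_of h2).symm.reachable

lemma reach_w (g : GI) (j : Fin 3) :
    (bip RM).Reachable (Sum.inl (wM g j)) (Sum.inl (uM g 0)) := by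
  have h : ∀ j : Fin 3, (((0 : Fin 3), j) : Fin 3 × Fin 3) ≠ (2, 2) := by decide
  have h1 : RM (wM g j) (Sum.inr (g, ⟨(0, j), h j⟩)) := Or.inr ⟨g, _, rfl, Or.inr rfl⟩
  have h2 : RM (uM g 0) (Sum.inr (g, ⟨(0, j), h j⟩)) := Or.inr ⟨g, _, rfl, Or.inl rfl⟩
  exact (adj_of h1).reachable.trans (adj_of h2).symm.reachable

/-- all points of a gadget are joined to the point `x_ij` -/
lemma reach_ux (g : GI) (i : Fin 3) :
    (bip RM).Reachable (Sum.inl (uM g i)) (Sum.inl (Sum.inl (xg g))) := by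
  have h1 := reach_u g i
  have h2 := reach_w g 0
  have h3 := reach_w g 2
  exact h1.trans (h2.trans h3.symm)

lemma reach_wx (g : GI) (j : Fin 3) :
    (bip RM).Reachable (Sum.inl (wM g j)) (Sum.inl (Sum.inl (xg g))) :=
  (reach_w g j).trans (reach_ux g 0)

/-- a line `a_i`, `b_j` is joined to `x_ij` -/
lemma reach_c (g : GI) :
    (bip RM).Reachable (Sum.inr (Sum.inl (cg g))) (Sum.inl (Sum.inl (xg g))) := by
  have h1 : RM (Sum.inr (Sum.inl g)) (Sum.inl (cg g)) := Or.inl ⟨g, rfl, rfl⟩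
  exact (adj_of h1).symm.reachable.trans (reach_ux g 2)

lemma reach_xx (i j k l : Fin 3) :
    (bip RM).Reachable (Sum.inl (Sum.inl (i, j))) (Sum.inl (Sum.inl (k, l))) := by
  have h1 := reach_c (false, i, j, false)
  have h2 := reach_c (false, i, l, false)
  have h3 := reach_c (true, i, l, false)
  have h4 := reach_c (true, k, l, false)
  exact (h1.symm.trans h2).trans (h3.symm.trans h4)

theorem connected_M : (bip RM).Connected := by
  have hx : ∀ p : Fin 3 × Fin 3, (bip RM).Reachable (Sum.inl (Sum.inl p)) (Sum.inl (Sum.inl (0, 0))) :=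
    fun p => reach_xx p.1 p.2 0 0
  have hall : ∀ v, (bip RM).Reachable v (Sum.inl (Sum.inl (0, 0))) := by
    rintro ((p | g | ⟨g, q⟩) | (⟨b, i⟩ | ⟨g, p⟩))
    · exact hx p
    · exact (reach_ux g 2).trans (hx _)
    · have hq : ∀ q : Fin 4, q = 0 ∨ q = 1 ∨ q = 2 ∨ q = 3 := by decide
      rcases hq q with rfl | rfl | rfl | rfl
      · exact (reach_ux g 0).trans (hx _)
      · exact (reach_ux g 1).trans (hx _)
      · exact (reach_wx g 0).trans (hx _)
      · exact (reach_wx g 1).trans (hx _)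
    · cases b
      · exact (reach_c (false, i, 0, false)).trans (hx _)
      · exact (reach_c (true, 0, i, false)).trans (hx _)
    · have h1 : RM (uM g p.1.1) (Sum.inr (g, p)) := Or.inr ⟨g, _, rfl, Or.inl rfl⟩
      exact (adj_of h1).symm.reachable.trans ((reach_ux g _).trans (hx _))
  have : Nonempty (XM ⊕ YM) := ⟨Sum.inl (Sum.inl (0, 0))⟩
  exact SimpleGraph.Connected.mk (fun u v => (hall u).trans (hall v).symm)

/-- **A polynomial gap between the asymmetric and the symmetric Turan number.** -/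
theorem result : ∃ (X Y : Type) (R : X → Y → Prop) (c C : ℝ), Finite X ∧ Finite Y ∧
    Nat.card X + Nat.card Y = 483 ∧ (bip R).Connected ∧ 0 < c ∧ ∀ n : ℕ,
      (1 / 16 : ℝ) * (n : ℝ) ^ (4 / 3 : ℝ) ≤ exStar R n ∧
      (extremalNumber n (bip R) : ℝ) ≤ C * (n : ℝ) ^ (33 / 25 : ℝ) ∧
      c * (n : ℝ) ^ (1 / 75 : ℝ) * (extremalNumber n (bip R) : ℝ) ≤ exStar R n := by
  obtain ⟨C, hC, hU⟩ := m_UPG
  have hcard : Nat.card XM + Nat.card YM = 483 := by
    have h8 : Fintype.card P8 = 8 := by decide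
    rw [Nat.card_eq_fintype_card, Nat.card_eq_fintype_card]
    simp only [Fintype.card_sum, Fintype.card_prod, Fintype.card_fin, Fintype.card_bool, h8]
  have hX : Fintype.card XM = 189 := by
    simp only [Fintype.card_sum, Fintype.card_prod, Fintype.card_fin, Fintype.card_bool]
  refine ⟨XM, YM, RM, 1 / (32 * C), 2 * C, inferInstance, inferInstance, hcard, connected_M,
    by positivity, fun n => ?_⟩
  have h1 : (1 / 16 : ℝ) * (n : ℝ) ^ (4 / 3 : ℝ) ≤ exStar RM n := by
    rcases Nat.lt_or_ge n 64 with h | h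
    · have h2 : ¬ HasOrderedCopy RM (Finset.univ : Finset (Fin n × Fin n)) := by
        rintro ⟨f, -, hf, -⟩
        have := Fintype.card_le_of_injective f hf
        rw [hX, Fintype.card_fin] at this
        omega
      have h3 := le_exStar RM _ h2
      rw [Finset.card_univ, Fintype.card_prod, Fintype.card_fin] at h3
      have h4 : ((n * n : ℕ) : ℝ) ≤ exStar RM n := by exact_mod_cast h3
      refine le_trans ?_ h4
      rcases Nat.eq_zero_or_pos n with h0 | h0
      · subst h0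
        rw [Nat.cast_zero, Real.zero_rpow (by norm_num)]
        simp
      · have h5 : (1 : ℝ) ≤ n := by exact_mod_cast h0
        have h6 : (n : ℝ) ^ (4 / 3 : ℝ) ≤ (n : ℝ) ^ (2 : ℝ) :=
          Real.rpow_le_rpow_of_exponent_le h5 (by norm_num)
        rw [Real.rpow_two] at h6
        clear hX h4 h3 h2 hU
        have h7 : (0 : ℝ) ≤ (n : ℝ) ^ 2 := by positivity
        have h8 : ((n * n : ℕ) : ℝ) = (n : ℝ) ^ 2 := by rw [Nat.cast_mul, sq]
        rw [h8]
        linarith
    · obtain ⟨B, -, hB2, hB3⟩ := m_HOS n h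
      have h2 : ¬ HasOrderedCopy RM B := by
        rintro ⟨f, g, hf, hg, hfg⟩
        exact hB2 ⟨⟨f, hf⟩, ⟨g, hg⟩, hfg⟩
      refine hB3.trans ?_
      exact_mod_cast le_exStar RM B h2
  have h2 : (extremalNumber n (bip RM) : ℝ) ≤ 2 * C * (n : ℝ) ^ (33 / 25 : ℝ) := by
    rw [bip_eq]
    exact FIN_ex m_CUG C hC hU n
  refine ⟨h1, h2, ?_⟩
  refine le_trans ?_ h1
  rcases Nat.eq_zero_or_pos n with h0 | h0
  · subst h0
    rw [Nat.cast_zero, Real.zero_rpow (by norm_num), Real.zero_rpow (by norm_num)]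
    simp
  · have hn0 : (0 : ℝ) < n := by exact_mod_cast h0
    have h3 : (n : ℝ) ^ (4 / 3 : ℝ) = (n : ℝ) ^ (1 / 75 : ℝ) * (n : ℝ) ^ (33 / 25 : ℝ) := by
      rw [← Real.rpow_add hn0]
      norm_num
    have h4 : 0 ≤ 1 / (32 * C) * (n : ℝ) ^ (1 / 75 : ℝ) := by positivity
    refine (mul_le_mul_of_nonneg_left h2 h4).trans (le_of_eq ?_)
    rw [h3]
    field_simp
    norm_num

end Pool.Agent.Results.MP_51d945_co.PolynomialGap
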